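import Pool.Agent.TH680.RS.Defs
import Pool.Agent.TH680.SE.Law

/-! The randomized classes. -/

set_option autoImplicit false

namespace Pool.Agent.TH680.RS

open Pool.Agent.NPC Pool.Agent.H620R2.Gauge Pool.Agent.H622R2 Pool.Agent.H591R3.PHG
  Pool.Agent.TH678.ETH Pool.Agent.TH678.SETH
open Pool.Agent.TH680.SE (coAlg coAlg_run subAlg subAlg_run poly_tau2 InCo isParN_xor)

theorem ncard_add_compl {T : ℕ} (S : Set (Fin T → Bool)) : S.ncard + Sᶜ.ncard = 2 ^ T := by
  rw [Set.ncard_add_ncard_compl]
  simp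

/-! ### Randomized algorithms give Arthur-Merlin proofs -/

theorem right_sub {M : Alg} {A : Oracle} {L : Set (List Bool)} {T : ℕ} {y : List Bool}
    (h : y ∉ L) : right M A L T y ⊆ merlin (coAlg M) A T y := by
  rintro r ⟨z, h1, h2⟩
  exact ⟨[], by simp, (coAlg_run M _ [] _ _ [] z h1).2 fun h3 => h (h2.2 h3)⟩

theorem merlin_sub {M : Alg} {A : Oracle} {L : Set (List Bool)} {T : ℕ} {y : List Bool}
    (h : y ∈ L) : merlin (coAlg M) A T y ⊆ (right M A L T y)ᶜ := by
  rintro r ⟨w, _, h1⟩ ⟨z, h2, h3⟩
  exact (coAlg_run M _ w _ _ [] z h2).1 h1 (h3.1 h)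

theorem inCoAM_of_inRand {δ : ℝ} {A : Oracle} {L : Set (List Bool)} (h : InRand δ A L) :
    InCoAM δ A L := by
  obtain ⟨M, c, h⟩ := h
  refine ⟨coAlg M, c, fun y => ⟨fun hy => (h y).trans (Nat.mul_le_mul_left 3
    (Set.ncard_le_ncard (right_sub hy) (Set.toFinite _))), fun hy => ?_⟩⟩
  have h1 := Set.ncard_le_ncard (merlin_sub (M := M) (A := A)
    (T := cost δ c (par y) y.length) hy) (Set.toFinite _)
  have h2 := ncard_add_compl (right M A L (cost δ c (par y) y.length) y)
  have h3 := h y
  omega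

/-! ### Proofs without coins -/

/-- the algorithm that ignores the coins -/
noncomputable def ign (M : Alg) : Alg where
  D := fun z => M.D (pairBits (pairBits (unpair (unpair z).1).1
    (unpair (unpair (unpair z).1).2).2) (unpair z).2)
  poly := by
    apply polyTime_of_poly_list
    exact (poly_of_polyTime M.poly).comp (poly_pairBits (poly_pairBits
      (Poly.fst (poly_unpair.comp (Poly.fst poly_unpair)))
      (Poly.snd (poly_unpair.comp (Poly.snd (poly_unpair.comp (Poly.fst poly_unpair))))))
      (Poly.snd poly_unpair))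
  p := 0

theorem ign_run (M : Alg) (O : Oracle) (w r s : List Bool) : ∀ (t : ℕ) (a : List Bool),
    (ign M).run O (pairBits w (pairBits r s)) t a = M.run O (pairBits w s) t a := by
  intro t
  induction t with
  | zero => intro a; rfl
  | succ t ih =>
    intro a
    rw [A2.run_succ, A2.run_succ]
    have h : (ign M).D (pairBits (pairBits w (pairBits r s)) a) =
        M.D (pairBits (pairBits w s) a) := by
      change M.D (pairBits (pairBits (unpair (unpair (pairBits (pairBits w (pairBits r s))
        a)).1).1 _) _) = _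
      simp only [unpair_pairBits]
    rw [h]
    split_ifs
    · exact ih _
    · rfl

theorem inCoAM_of_inCo {δ : ℝ} {A : Oracle} {L : Set (List Bool)} (h : InCo δ A L) :
    InCoAM δ A L := by
  obtain ⟨M, c, h⟩ := h
  refine ⟨ign M, c, fun y => ⟨fun hy => ?_, fun hy => ?_⟩⟩
  · have h1 : merlin (ign M) A (cost δ c (par y) y.length) y = Set.univ := by
      refine Set.eq_univ_of_forall fun r => ?_
      obtain ⟨w, h2, h3⟩ := (h y).1 hy
      exact ⟨w, h2, by rw [ign_run]; exact h3⟩
    rw [h1, Set.ncard_univ, Nat.card_eq_fintype_card, Fintype.card_fun, Fintype.card_bool,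
      Fintype.card_fin]
    omega
  · have h1 : merlin (ign M) A (cost δ c (par y) y.length) y = ∅ := by
      refine Set.eq_empty_of_forall_notMem fun r => ?_
      rintro ⟨w, h2, h3⟩
      rw [ign_run] at h3
      exact (h y).2 ⟨w, h2, h3⟩ hy
    rw [h1]
    simp

/-! ### Substitution -/

theorem poly_tau3 : Poly (fun x : List Bool => (unpair (unpair (unpair x).2).2).1) :=
  Poly.fst (poly_unpair.comp (Poly.snd (poly_unpair.comp (Poly.snd poly_unpair))))

theorem inRand_xor {A D : Oracle} {E : List Bool → Bool} (hE : Poly E)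
    (hD : ∀ q, D q = (A q ^^ E q)) {δ : ℝ} {L : Set (List Bool)} (h : InRand δ D L) :
    InRand δ A L := by
  obtain ⟨M, c, h⟩ := h
  refine ⟨subAlg M poly_tau2 hE, c, fun y => ?_⟩
  have e : right (subAlg M poly_tau2 hE) A L (cost δ c (par y) y.length) y =
      right M D L (cost δ c (par y) y.length) y := by
    ext r
    refine exists_congr fun z => and_congr_left fun _ => ?_
    rw [subAlg_run M poly_tau2 hE hD (by
      rw [unpair_pairBits, unpair_pairBits, List.length_replicate])]
    rfl
  rw [e]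
  exact h y

theorem inCoAM_xor {A D : Oracle} {E : List Bool → Bool} (hE : Poly E)
    (hD : ∀ q, D q = (A q ^^ E q)) {δ : ℝ} {L : Set (List Bool)} (h : InCoAM δ D L) :
    InCoAM δ A L := by
  obtain ⟨M, c, h⟩ := h
  refine ⟨subAlg M poly_tau3 hE, c, fun y => ?_⟩
  have e : merlin (subAlg M poly_tau3 hE) A (cost δ c (par y) y.length) y =
      merlin M D (cost δ c (par y) y.length) y := by
    ext r
    refine exists_congr fun w => and_congr_right fun _ => ?_
    rw [subAlg_run M poly_tau3 hE hD (by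
      rw [unpair_pairBits, unpair_pairBits, unpair_pairBits, List.length_replicate])]
    rfl
  rw [e]
  exact h y

theorem same {A D : Oracle} {E : List Bool → Bool} (hE : Poly E)
    (hD : ∀ q, D q = (A q ^^ E q)) :
    (∀ δ L, InRand δ A L ↔ InRand δ D L) ∧ ∀ δ L, InCoAM δ A L ↔ InCoAM δ D L := by
  have hA : ∀ q, A q = (D q ^^ E q) := fun q => by
    rw [hD]
    cases A q <;> cases E q <;> rfl
  exact ⟨fun δ L => ⟨inRand_xor hE hA, inRand_xor hE hD⟩,
    fun δ L => ⟨inCoAM_xor hE hA, inCoAM_xor hE hD⟩⟩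

theorem same_seth {A D : Oracle} {E : List Bool → Bool} (hE : Poly E)
    (hD : ∀ q, D q = (A q ^^ E q)) : (RSETH A ↔ RSETH D) ∧ (AMSETH A ↔ AMSETH D) := by
  obtain ⟨h1, -, -⟩ := SE.same hE hD
  obtain ⟨h2, h3⟩ := same hE hD
  constructor
  · unfold RSETH
    simp only [h1, h2]
  · unfold AMSETH
    simp only [h1, h3]

end Pool.Agent.TH680.RS
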