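import Pool.Agent.TH680.SE.Defs

/-!
# The randomized strong exponential time hypothesis relative to an oracle

(Continues `Pool.Agent.H620R2.Gauge.Defs`, `Pool.Agent.TH678.ETH.Defs`,
`Pool.Agent.TH678.SETH.Defs` and `Pool.Agent.TH680.SE.Defs`.)
-/

set_option autoImplicit false

namespace Pool.Agent.TH680.RS

open Pool.Agent.NPC Pool.Agent.H620R2.Gauge Pool.Agent.TH678.ETH Pool.Agent.TH678.SETH

/-- The coin tapes `r` of `T` bits for which the algorithm gives the right answer for the instance
`y` of `L`: it gets `r`, `T` ones and `y`, and works for at most `T` rounds, where questions of more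
than `T` bits are answered by `false`. -/
def right (M : Alg) (A : Oracle) (L : Set (List Bool)) (T : ℕ) (y : List Bool) :
    Set (Fin T → Bool) :=
  {r | ∃ z : List Bool, M.run (upTo T A)
    (pairBits (List.ofFn r) (pairBits (List.replicate T true) y)) T [] = some z ∧
      (y ∈ L ↔ z = [true])}

/-- The language `L` is decided in randomized time `2 ^ (δ par y) poly |y|` relative to `A`, with
bounded error: for `T = cost δ c (par y) |y|`, the algorithm gives the right answer for at least
`2 / 3` of the `2 ^ T` coin tapes of `T` bits. -/
def InRand (δ : ℝ) (A : Oracle) (L : Set (List Bool)) : Prop :=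
  ∃ (M : Alg) (c : ℕ), ∀ y : List Bool,
    2 * 2 ^ cost δ c (par y) y.length ≤ 3 * (right M A L (cost δ c (par y) y.length) y).ncard

/-- The coin tapes `r` of `T` bits for which the algorithm accepts some certificate `w` of at most
`T` bits (it gets `w`, `r`, `T` ones and `y`, and works for at most `T` rounds, where questions of
more than `T` bits are answered by `false`). -/
def merlin (M : Alg) (A : Oracle) (T : ℕ) (y : List Bool) : Set (Fin T → Bool) :=
  {r | ∃ w : List Bool, w.length ≤ T ∧ M.run (upTo T A)
    (pairBits w (pairBits (List.ofFn r) (pairBits (List.replicate T true) y))) T [] = some [true]}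

/-- The complement of `L` has Arthur-Merlin proofs (two rounds, Arthur's coins first) in time
`2 ^ (δ par y) poly |y|` relative to `A`: if `y` is not in `L`, then for at least `2 / 3` of the coin
tapes there is a certificate; if `y` is in `L`, for at most `1 / 3` of them. -/
def InCoAM (δ : ℝ) (A : Oracle) (L : Set (List Bool)) : Prop :=
  ∃ (M : Alg) (c : ℕ), ∀ y : List Bool,
    (y ∉ L → 2 * 2 ^ cost δ c (par y) y.length ≤
      3 * (merlin M A (cost δ c (par y) y.length) y).ncard) ∧
    (y ∈ L → 3 * (merlin M A (cost δ c (par y) y.length) y).ncard ≤
      2 ^ cost δ c (par y) y.length)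

/-- The randomized strong exponential time hypothesis relative to `A`: for no `δ < 1` all the
parametrized search problems are decided in randomized time `2 ^ (δ n) poly`, where `n` is the number
of variables. -/
def RSETH (A : Oracle) : Prop := ∀ δ : ℚ, δ < 1 → ∃ L, IsParN A L ∧ ¬ InRand δ A L

/-- The Arthur-Merlin strong exponential time hypothesis relative to `A`: for no `δ < 1` the
complements of all the parametrized search problems have Arthur-Merlin proofs in time
`2 ^ (δ n) poly`. -/
def AMSETH (A : Oracle) : Prop := ∀ δ : ℚ, δ < 1 → ∃ L, IsParN A L ∧ ¬ InCoAM δ A L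

end Pool.Agent.TH680.RS
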