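import Pool.Agent.TH680.RS.Cls
import Pool.Agent.TH680.OR.Law

/-! The law for the randomized strong exponential time hypotheses. -/

set_option autoImplicit false

namespace Pool.Agent.TH680.RS

open Pool.Agent.NPC Pool.Agent.H620R2.Gauge Pool.Agent.H591R3.PHG MeasureTheory ProbabilityTheory
  Finset Pool.Agent.W900.IE Pool.Agent.W900.PS Pool.Agent.H622R2 Pool.Agent.W900
  Pool.Agent.TH678.ETH Pool.Agent.TH678.SETH
open Pool.Agent.TH680.OD (join sfx rr disj_blk)
open Pool.Agent.TH680.SE (setT card_strs KK nn nn_le le_nn KK_le card_bad rare_sum qs card_qs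
  run_qs sat inst inst_mem par_inst isParN_sat cost_small)
open Pool.Agent.TH680.OR (Free put put_off single ae_often)

theorem upTo_join_eq {Q A A' : Oracle} {T : ℕ}
    (h : ∀ z ∈ (Finset.range (T + 1)).biUnion DT.strs, A z = A' z) :
    upTo T (join Q A) = upTo T (join Q A') := by
  funext x
  unfold upTo
  by_cases hx : x.length ≤ T
  · rcases x with _ | ⟨b, z⟩
    · rfl
    · cases b with
      | false => rfl
      | true =>
        have h3 : A z = A' z := h z (Finset.mem_biUnion.2 ⟨z.length, Finset.mem_range.2 (by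
          rw [List.length_cons] at hx
          omega), DT.mem_strs.2 rfl⟩)
        show (decide _ && A z) = (decide _ && A' z)
        rw [h3]
  · rw [decide_eq_false hx]
    rfl

theorem merlin_eq {Q A A' : Oracle} {M : Alg} {T : ℕ} {y : List Bool}
    (h : upTo T (join Q A) = upTo T (join Q A')) :
    merlin M (join Q A) T y = merlin M (join Q A') T y := by
  unfold merlin
  rw [h]

theorem merlin_cert (Q : Oracle) (M : Alg) (T : ℕ) (y : List Bool) {A : Oracle}
    {r : Fin T → Bool} (hr : r ∈ merlin M (join Q A) T y) : ∃ S : Finset (List Bool), S.card ≤ T ∧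
      ∀ A', (∀ z ∈ S, A' z = A z) → r ∈ merlin M (join Q A') T y := by
  classical
  obtain ⟨w, hw, h1⟩ := hr
  set x := pairBits w (pairBits (List.ofFn r) (pairBits (List.replicate T true) y)) with hx
  refine ⟨(qs M (upTo T (join Q A)) x T []).image List.tail,
    Finset.card_image_le.trans (card_qs _ _ _ _ _), fun A' h => ⟨w, hw, ?_⟩⟩
  rw [← hx, run_qs M (upTo T (join Q A)) (upTo T (join Q A')) x T [] ?_]
  · exact h1
  · intro z hz
    rcases z with _ | ⟨b, z⟩
    · rfl
    · cases b with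
      | false => rfl
      | true =>
        have h2 := h z (Finset.mem_image.2 ⟨_, hz, rfl⟩)
        unfold upTo
        show (decide _ && A' z) = (decide _ && A z)
        rw [show A' z = A z from h2]

/-- the algorithm is right for the instance `y` -/
def RR (b : Bool) (Q : Oracle) (M : Alg) (T : ℕ) (y : List Bool) : Set Oracle :=
  {A | (y ∉ sat b (join Q A) → 2 * 2 ^ T ≤ 3 * (merlin M (join Q A) T y).ncard) ∧
    (y ∈ sat b (join Q A) → 3 * (merlin M (join Q A) T y).ncard ≤ 2 ^ T)}

theorem rr_dep (b : Bool) (Q : Oracle) (M : Alg) (T n N K : ℕ) (hn : n ≤ N) :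
    ∃ F, DepO F (RR b Q M T (inst n N K)) := by
  classical
  refine ⟨(Finset.range (T + 1)).biUnion DT.strs ∪ DT.strs N, ?_⟩
  intro A A' h hA
  have h1 : upTo T (join Q A) = upTo T (join Q A') :=
    upTo_join_eq fun z hz => h z (Finset.mem_union_left _ hz)
  have h2 : inst n N K ∉ sat b (join Q A) ↔ inst n N K ∉ sat b (join Q A') := by
    rw [inst_mem, inst_mem]
    refine forall₂_congr fun w hw => exists_congr fun i => and_congr_right fun _ => ?_
    rw [h _ (Finset.mem_union_right _ (DT.mem_strs.2 (by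
      rw [List.length_append, hw, OD.length_sfx]
      omega)))]
  have h3 : inst n N K ∈ sat b (join Q A) ↔ inst n N K ∈ sat b (join Q A') := not_iff_not.1 h2
  refine ⟨fun h4 => ?_, fun h4 => ?_⟩
  · rw [← merlin_eq h1]
    exact hA.1 (h2.2 h4)
  · rw [← merlin_eq h1]
    exact hA.2 (h3.2 h4)

/-- most of the neighbours are bad -/
theorem nbr {b : Bool} {Q : Oracle} {M : Alg} {T n N K : ℕ} (hT : 4 * T ≤ 2 ^ n)
    {A : Oracle} (hA : A ∈ RR b Q M T (inst n N K)) (hf : Free n N K b A) :
    ((DT.strs n).card / 4 : ℝ) ≤ ∑ w ∈ DT.strs n,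
      Set.indicator {A | setT (OD.blk N K w) (fun _ => !b) A ∉ RR b Q M T (inst n N K)}
        (fun _ => (1 : ℝ)) A := by
  classical
  have hns : inst n N K ∉ sat b (join Q A) := by
    rw [inst_mem]
    intro w hw
    have h1 := hf w (DT.mem_strs.2 hw)
    by_contra hcon
    push Not at hcon
    apply h1
    intro z hz
    unfold OD.blk at hz
    rw [Finset.mem_image] at hz
    obtain ⟨i, hi, rfl⟩ := hz
    have h2 := hcon i (Finset.mem_range.1 hi)
    rw [hw]
    revert h2
    cases A (w ++ sfx (N - n) i) <;> cases b <;> simp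
  have hbig := hA.1 hns
  have hmem : ∀ w ∈ DT.strs n, inst n N K ∈ sat b (join Q (put N K b w A)) := by
    intro w hw
    rw [← not_not (a := inst n N K ∈ _), inst_mem]
    push Not
    refine ⟨w, DT.mem_strs.1 hw, fun i hi => ?_⟩
    rw [((single hf hw w (DT.mem_strs.1 hw)).2 rfl) i hi]
    cases b <;> simp
  set X : Finset (Fin T → Bool) := (merlin M (join Q A) T (inst n N K)).toFinset with hX
  have hXc : X.card = (merlin M (join Q A) T (inst n N K)).ncard := by
    rw [hX, Set.ncard_eq_toFinset_card']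
  have hS : ∀ r : Fin T → Bool, ∃ S : Finset (List Bool), S.card ≤ T ∧ (r ∈ X → ∀ A',
      (∀ z ∈ S, A' z = A z) → r ∈ merlin M (join Q A') T (inst n N K)) := by
    intro r
    by_cases hr : r ∈ merlin M (join Q A) T (inst n N K)
    · obtain ⟨S, h1, h2⟩ := merlin_cert Q M T _ hr
      exact ⟨S, h1, fun _ => h2⟩
    · exact ⟨∅, by simp, fun h => absurd (by rwa [hX, Set.mem_toFinset] at h) hr⟩
  choose S hS1 hS2 using hS
  -- the good neighbours
  set Gd := (DT.strs n).filter (fun w => put N K b w A ∈ RR b Q M T (inst n N K)) with hGd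
  have h1 : ∀ w ∈ Gd, 2 ^ T ≤ 3 * (X.filter (fun r => ¬ Disjoint (S r) (OD.blk N K w))).card := by
    intro w hw
    rw [hGd, Finset.mem_filter] at hw
    have h2 := hw.2.2 (hmem w hw.1)
    set Y : Finset (Fin T → Bool) := (merlin M (join Q (put N K b w A)) T
      (inst n N K)).toFinset with hY
    have hYc : Y.card = (merlin M (join Q (put N K b w A)) T (inst n N K)).ncard := by
      rw [hY, Set.ncard_eq_toFinset_card']
    have h3 : X ⊆ Y ∪ X.filter (fun r => ¬ Disjoint (S r) (OD.blk N K w)) := by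
      intro r hr
      rw [Finset.mem_union, Finset.mem_filter]
      by_cases hd : Disjoint (S r) (OD.blk N K w)
      · refine Or.inl ?_
        rw [hY, Set.mem_toFinset]
        exact hS2 r hr _ fun z hz => put_off (Finset.disjoint_left.1 hd hz)
      · exact Or.inr ⟨hr, hd⟩
    have h4 := (Finset.card_le_card h3).trans (Finset.card_union_le _ _)
    omega
  have h2 : ∑ w ∈ Gd, (X.filter (fun r => ¬ Disjoint (S r) (OD.blk N K w))).card ≤ 2 ^ T * T := by
    have h3 : ∑ w ∈ Gd, (X.filter (fun r => ¬ Disjoint (S r) (OD.blk N K w))).card =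
        ∑ r ∈ X, (Gd.filter (fun w => ¬ Disjoint (S r) (OD.blk N K w))).card := by
      simp only [Finset.card_filter]
      rw [Finset.sum_comm]
    rw [h3]
    have h4 : ∀ r ∈ X, (Gd.filter (fun w => ¬ Disjoint (S r) (OD.blk N K w))).card ≤ T := by
      intro r _
      refine (card_bad ?_).trans (hS1 r)
      intro w hw w' hw' hne
      rw [hGd, Finset.mem_filter] at hw hw'
      exact disj_blk ((DT.mem_strs.1 hw.1).trans (DT.mem_strs.1 hw'.1).symm) hne
    refine (Finset.sum_le_card_nsmul _ _ _ h4).trans ?_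
    rw [smul_eq_mul]
    refine Nat.mul_le_mul_right _ ((Finset.card_le_univ _).trans (le_of_eq ?_))
    rw [Fintype.card_fun, Fintype.card_bool, Fintype.card_fin]
  have h3 : Gd.card ≤ 3 * T := by
    have h4 := Finset.card_nsmul_le_sum Gd
      (fun w => 3 * (X.filter (fun r => ¬ Disjoint (S r) (OD.blk N K w))).card) (2 ^ T) h1
    rw [← Finset.mul_sum, smul_eq_mul] at h4
    have h5 : Gd.card * 2 ^ T ≤ (3 * T) * 2 ^ T := by
      refine h4.trans ((Nat.mul_le_mul_left 3 h2).trans (le_of_eq ?_))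
      ring
    exact Nat.le_of_mul_le_mul_right h5 (by positivity)
  -- conclusion
  have h4 : ((DT.strs n \ Gd).card : ℝ) ≤ ∑ w ∈ DT.strs n,
      Set.indicator {A | setT (OD.blk N K w) (fun _ => !b) A ∉ RR b Q M T (inst n N K)}
        (fun _ => (1 : ℝ)) A := by
    have h5 : ((DT.strs n \ Gd).card : ℝ) = ∑ w ∈ DT.strs n \ Gd,
        Set.indicator {A | setT (OD.blk N K w) (fun _ => !b) A ∉ RR b Q M T (inst n N K)}
          (fun _ => (1 : ℝ)) A := by
      rw [Finset.sum_congr rfl (g := fun _ => (1 : ℝ)), Finset.sum_const, nsmul_eq_mul, mul_one]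
      intro w hw
      apply Set.indicator_of_mem
      rw [Finset.mem_sdiff, hGd, Finset.mem_filter, not_and] at hw
      exact hw.2 hw.1
    rw [h5]
    exact Finset.sum_le_sum_of_subset_of_nonneg Finset.sdiff_subset
      fun w _ _ => Set.indicator_nonneg (fun _ _ => zero_le_one) _
  refine le_trans ?_ h4
  have h5 : (DT.strs n \ Gd).card + Gd.card = (DT.strs n).card := by
    rw [Finset.card_sdiff_add_card_eq_card (Finset.filter_subset _ _)]
  rw [card_strs] at h5 ⊢
  have h6 : 2 ^ n ≤ 4 * (DT.strs n \ Gd).card := by omega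
  have h7 : ((2 ^ n : ℕ) : ℝ) ≤ 4 * (DT.strs n \ Gd).card := by exact_mod_cast h6
  linarith

theorem cost_succ (δ : ℝ) (c n ℓ : ℕ) : 2 * cost δ c n ℓ ≤ cost δ (c + 1) n ℓ := by
  unfold cost
  rw [pow_succ]
  have h : 2 ≤ ℓ + 2 := by omega
  calc 2 * (2 ^ ⌊δ * (n : ℝ)⌋₊ * (ℓ + 2) ^ c) = 2 ^ ⌊δ * (n : ℝ)⌋₊ * ((ℓ + 2) ^ c * 2) := by ring
    _ ≤ 2 ^ ⌊δ * (n : ℝ)⌋₊ * ((ℓ + 2) ^ c * (ℓ + 2)) := by gcongr

/-- **The Arthur-Merlin hypothesis holds.** -/
theorem ae_amseth {q : ℕ → unitInterval} (h : ¬ Summable (fun N => 2 ^ N * rr q N))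
    (Q : Oracle) : ∀ᵐ A ∂(indep (DT.pq q)), ∃ L, IsParN (join Q A) L ∧
      ∀ δ : ℚ, δ < 1 → ¬ InCoAM δ (join Q A) L := by
  obtain ⟨b, hb⟩ := rare_sum h
  have h1 : ∀ᵐ A ∂(indep (DT.pq q)), ∀ (δ : ℚ) (M : Alg) (c : ℕ), δ < 1 →
      ∃ᶠ N : ℕ in Filter.atTop,
        A ∉ RR b Q M (cost δ c (nn q N) (inst (nn q N) N (KK q N)).length)
            (inst (nn q N) N (KK q N)) := by
    rw [ae_all_iff]
    intro δ
    rw [ae_all_iff]
    intro M
    rw [ae_all_iff]
    intro c
    by_cases hδ : δ < 1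
    · have hδr : (δ : ℝ) < 1 := by exact_mod_cast hδ
      have h2 := ae_often (q := q) (b := b) hb
        (R := fun N => RR b Q M (cost δ c (nn q N) (inst (nn q N) N (KK q N)).length)
            (inst (nn q N) N (KK q N))) (fun N => rr_dep b Q M _ _ _ _ (nn_le q N)) (by
          filter_upwards [cost_small q hδr (c + 1)] with N hN A hA hf
          have h3 := cost_succ (δ : ℝ) c (nn q N) (inst (nn q N) N (KK q N)).length
          exact nbr (by omega) hA hf)
      filter_upwards [h2] with A hA _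
      exact hA
    · exact Filter.Eventually.of_forall fun A h => absurd h hδ
  filter_upwards [h1] with A hA
  refine ⟨sat b (join Q A), isParN_sat b _, ?_⟩
  rintro δ hδ ⟨M, c, h2⟩
  obtain ⟨N, hN⟩ := (hA δ M c hδ).exists
  apply hN
  have h3 := h2 (inst (nn q N) N (KK q N))
  rw [par_inst] at h3
  exact h3

end Pool.Agent.TH680.RS
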